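import Pool.Agent.SY.Plug
import Pool.Agent.SY.PotM

/-!
# G0 MP: the maximum principle for the metric along a curve, compared with a power of the norm of a lift
-/

set_option autoImplicit false

open Topology Filter Metric

namespace Pool.Agent.H13.G0

open Pool.Agent.H36.BP (EN Sub Sub.mul Sub.congr Sub.exp_sq Sub.of_holo Sub.anti max_principle)
open Pool.Agent.SY (Ent Energy Cls BubbleAt)
open Pool.Agent.H22.W (PseudoLength)

variable {N : ℕ}

/-- the maximum principle for an upper semicontinuous function `m` such that `m * ‖F‖ ^ (-c₀)` has Laplacian `≥ - C m ^ 2` and `m ≤ C₁` -/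
theorem max_fun {c₀ C C₁ : ℝ} (hC : 0 ≤ C) {F : ℂ → EN N} (hF : Differentiable ℂ F) (h0 : ∀ z, F z ≠ 0) {v : ℂ → ℂ} (hv : Differentiable ℂ v)
    {m : ℂ → ℝ} {c : ℂ} {R B : ℝ} (hB : 0 ≤ B) (hm : UpperSemicontinuousOn m (closedBall c R)) (hm0 : ∀ z ∈ closedBall c R, 0 ≤ m z)
    (hmA : ∀ z ∈ closedBall c R, m z ≤ C₁)
    (hs : ∀ z ∈ ball c R, 0 < m z → Sub (fun w => m w * ‖F w‖ ^ (-c₀)) z (-(C * m z ^ 2)))
    (hsph : ∀ z ∈ sphere c R, m z ≤ B * ‖Complex.exp (v z) • F z‖ ^ c₀) :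
    ∀ z ∈ closedBall c R, m z ≤ Real.exp ((C * C₁ ^ 2 + 1) * R ^ 2) * (B * ‖Complex.exp (v z) • F z‖ ^ c₀) := by
  set a : ℝ := C * C₁ ^ 2 + 1 with ha
  have ha0 : 0 < a := by positivity
  set h : ℂ → ℝ := fun w => ‖F w‖ ^ (-c₀) * ‖Complex.exp (-(c₀ : ℂ) * v w)‖ * Real.exp (a * ‖w - c‖ ^ 2) with hh
  have hFpos : ∀ w, 0 < ‖F w‖ := fun w => norm_pos_iff.2 (h0 w)
  have hpos : ∀ w, 0 < h w := fun w => by
    have h1 := Real.rpow_pos_of_pos (hFpos w) (-c₀)
    have h2 : 0 < ‖Complex.exp (-(c₀ : ℂ) * v w)‖ := norm_pos_iff.2 (Complex.exp_ne_zero _)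
    positivity
  have hcont : Continuous h := by
    have h1 : Continuous fun w => ‖F w‖ ^ (-c₀) := by
      refine hF.continuous.norm.rpow_const fun w => Or.inl (hFpos w).ne'
    have h2 : Continuous fun w => ‖Complex.exp (-(c₀ : ℂ) * v w)‖ := ((continuous_const.mul hv.continuous).cexp).norm
    have h3 : Continuous fun w : ℂ => Real.exp (a * ‖w - c‖ ^ 2) := by fun_prop
    exact (h1.mul h2).mul h3
  -- `h` is the power of the norm of the lift
  have hΦ : ∀ w, ‖F w‖ ^ (-c₀) * ‖Complex.exp (-(c₀ : ℂ) * v w)‖ = (‖Complex.exp (v w) • F w‖ ^ c₀)⁻¹ := by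
    intro w
    rw [norm_smul, Real.mul_rpow (norm_nonneg _) (norm_nonneg _), mul_inv, Real.rpow_neg (norm_nonneg _), mul_comm]
    congr 1
    rw [Complex.norm_exp, Complex.norm_exp, ← Real.exp_mul, ← Real.exp_neg]
    congr 1
    have : (-(c₀ : ℂ) * v w).re = -c₀ * (v w).re := by
      rw [← Complex.ofReal_neg, Complex.re_ofReal_mul]
    rw [this]
    ring
  have hΦpos : ∀ w, 0 < ‖Complex.exp (v w) • F w‖ ^ c₀ := fun w =>
    Real.rpow_pos_of_pos (norm_pos_iff.2 (smul_ne_zero (Complex.exp_ne_zero _) (h0 w))) _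
  have husc : UpperSemicontinuousOn (fun z => m z * h z) (closedBall c R) := by
    intro x hx y hy
    have hx0 : 0 < h x := hpos x
    have h1 : m x < y / h x := (lt_div_iff₀ hx0).2 hy
    obtain ⟨b, hb1, hb2⟩ := exists_between h1
    have h2 : b * h x < y := (lt_div_iff₀ hx0).1 hb2
    have h3 : ∀ᶠ z in 𝓝[closedBall c R] x, b * h z < y :=
      (continuousWithinAt_const.mul hcont.continuousWithinAt).tendsto.eventually (gt_mem_nhds h2)
    filter_upwards [hm x hx b hb1, h3] with z hz1 hz2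
    exact (mul_lt_mul_of_pos_right hz1 (hpos z)).trans hz2
  have key := max_principle (isCompact_closedBall c R) isOpen_ball ball_subset_closedBall husc
    (A := B * Real.exp (a * R ^ 2)) (fun z hz hz0 => ?_) (by positivity) (fun z hz => ?_)
  · intro p hp
    have h1 := key p hp
    have h2 : m p * (‖Complex.exp (v p) • F p‖ ^ c₀)⁻¹ ≤ B * Real.exp (a * R ^ 2) := by
      have h3 : m p * (‖Complex.exp (v p) • F p‖ ^ c₀)⁻¹ ≤ m p * h p := by
        rw [hh, ← hΦ p]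
        refine mul_le_mul_of_nonneg_left ?_ (hm0 p hp)
        refine le_mul_of_one_le_right ?_ (Real.one_le_exp (by positivity))
        exact mul_nonneg (Real.rpow_nonneg (norm_nonneg _) _) (norm_nonneg _)
      exact h3.trans h1
    rw [← div_eq_mul_inv, div_le_iff₀ (hΦpos p)] at h2
    linarith
  · have hm0' : 0 < m z := by
      by_contra h3
      exact absurd hz0 (not_lt.2 (mul_nonpos_of_nonpos_of_nonneg (not_lt.1 h3) (hpos z).le))
    have hs1 := hs z hz hm0'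
    have hs2 : Sub (fun w => ‖Complex.exp (-(c₀ : ℂ) * v w)‖) z 0 :=
      Sub.of_holo (((analyticAt_const.mul (hv.analyticAt z))).cexp) (Complex.exp_ne_zero _)
    have hs3 : Sub (fun w => Real.exp (a * ‖w - c‖ ^ 2)) z (a * ‖deriv (fun w : ℂ => w - c) z‖ ^ 2) :=
      Sub.exp_sq (analyticAt_id.sub analyticAt_const) _
    have h3 : deriv (fun w : ℂ => w - c) z = 1 := by
      rw [deriv_sub_const]
      exact deriv_id z
    rw [h3, norm_one, one_pow, mul_one] at hs3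
    have h4 := (hs1.mul hs2).mul hs3
    refine ⟨-(C * m z ^ 2) + 0 + a, ?_, h4.congr (Eventually.of_forall fun w => ?_)⟩
    · have h5 : m z ^ 2 ≤ C₁ ^ 2 := pow_le_pow_left₀ hm0'.le (hmA z (ball_subset_closedBall hz)) 2
      have h6 : C * m z ^ 2 ≤ C * C₁ ^ 2 := mul_le_mul_of_nonneg_left h5 hC
      rw [ha]
      linarith
    · rw [hh]
      ring
  · have hz1 : z ∈ sphere c R := by
      rw [← closedBall_sdiff_ball]
      exact hz
    have hzn : ‖z - c‖ = R := mem_sphere_iff_norm.1 hz1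
    change m z * (‖F z‖ ^ (-c₀) * ‖Complex.exp (-(c₀ : ℂ) * v z)‖ * Real.exp (a * ‖z - c‖ ^ 2)) ≤ _
    rw [hzn, ← mul_assoc, hΦ z]
    refine mul_le_mul_of_nonneg_right ?_ (Real.exp_pos _).le
    rw [← div_eq_mul_inv, div_le_iff₀ (hΦpos z)]
    exact hsph z hz1

variable {X T : Set (EN N)} {rho : EN N → ℝ} {M : ℕ} {c₀ C : ℝ} {g : (ℂ → EN N) → ℂ → ℝ}

/-- the maximum principle for the metric `g F` and a lift `exp (v) • F` -/
theorem energy_max (E : Energy X T (fun x => ‖x‖) rho M c₀ C g) (hX0 : ∀ x ∈ X, x ≠ 0) {C₁ : ℝ} {F : ℂ → EN N} (hF : Ent X T F)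
    (hA : ∀ z, g F z ≤ C₁) {v : ℂ → ℂ} (hv : Differentiable ℂ v) {c : ℂ} {R B : ℝ} (hB : 0 ≤ B)
    (hsph : ∀ z ∈ sphere c R, g F z ≤ B * ‖Complex.exp (v z) • F z‖ ^ c₀) :
    ∀ z ∈ closedBall c R, g F z ≤ Real.exp ((C * C₁ ^ 2 + 1) * R ^ 2) * (B * ‖Complex.exp (v z) • F z‖ ^ c₀) :=
  max_fun E.C_pos.le hF.diff (fun z => hX0 _ (hF.mem z)) hv hB
    (fun x _ a ha => (E.usc F hF x a ha).filter_mono nhdsWithin_le_nhds) (fun z _ => E.nonneg F hF z) (fun z _ => hA z)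
    (fun z _ hz0 => E.sub F hF z hz0) hsph

/-- the form used for a sequence: one constant `K` for all discs of radius at most `r'` -/
theorem energy_max_seq (E : Energy X T (fun x => ‖x‖) rho M c₀ C g) (hX0 : ∀ x ∈ X, x ≠ 0) {C₁ : ℝ} (r' : ℝ) :
    ∃ K : ℝ, 0 < K ∧ ∀ F : ℂ → EN N, Ent X T F → (∀ z, g F z ≤ C₁) → ∀ v : ℂ → ℂ, Differentiable ℂ v → ∀ (c : ℂ) (R B : ℝ), 0 ≤ R → R ≤ r' → 0 ≤ B →
      (∀ z ∈ sphere c R, g F z ≤ B * ‖Complex.exp (v z) • F z‖ ^ c₀) →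
      ∀ z ∈ closedBall c R, g F z ≤ K * (B * ‖Complex.exp (v z) • F z‖ ^ c₀) := by
  refine ⟨Real.exp ((C * C₁ ^ 2 + 1) * r' ^ 2), Real.exp_pos _, fun F hF hA v hv c R B hR0 hR hB hsph z hz => ?_⟩
  refine (energy_max E hX0 hF hA hv hB hsph z hz).trans ?_
  have hC := E.C_pos
  refine mul_le_mul_of_nonneg_right (Real.exp_le_exp.2 ?_) (mul_nonneg hB (Real.rpow_nonneg (norm_nonneg _) _))
  exact mul_le_mul_of_nonneg_left (pow_le_pow_left₀ hR0 hR 2) (by positivity)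

end Pool.Agent.H13.G0
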