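import Pool.Agent.H13.G0.Tay
import Pool.Agent.H62.Log.Hurwitz

/-!
# G0 Scal: scaling of a degenerating sequence of curves by its Taylor coefficients (STEP 1 of note 4435)
-/

set_option autoImplicit false

open Topology Filter Metric Finset

namespace Pool.Agent.H13.G0

variable {E : Type*} [NormedAddCommGroup E] [NormedSpace ℂ E] [FiniteDimensional ℂ E]

/-- a zero of `a ∘ G n` which tends to `0` -/
theorem exists_zero {𝒰 : Ultrafilter ℕ} {φ : ℕ → ℂ → ℂ} {κ : ℂ → ℂ} {r : ℝ} {M : ℕ} (hr : 0 < r) (hM : 1 ≤ M)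
    (hφ : ∀ᶠ n in (𝒰 : Filter ℕ), DifferentiableOn ℂ (φ n) (ball 0 r)) (hκ : DifferentiableOn ℂ κ (ball 0 r)) (h1 : κ 0 ≠ 0)
    (hlim : TendstoLocallyUniformlyOn φ (fun z => z ^ M * κ z) 𝒰 (ball 0 r)) :
    ∃ c : ℕ → ℂ, Tendsto c 𝒰 (𝓝 0) ∧ ∀ᶠ n in (𝒰 : Filter ℕ), φ n (c n) = 0 := by
  have hcont : ContinuousOn (fun z => z ^ M * κ z) (ball 0 r) := by
    intro z hz
    exact ((continuous_pow M).continuousAt.continuousWithinAt).mul (hκ.continuousOn z hz)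
  have hκ0 : ∀ᶠ z in 𝓝 (0 : ℂ), κ z ≠ 0 :=
    ((hκ.continuousOn 0 (mem_ball_self hr)).continuousAt (ball_mem_nhds 0 hr)).eventually_ne h1
  obtain ⟨s, hs, hs'⟩ := Metric.eventually_nhds_iff_ball.1 hκ0
  set ρ : ℝ := min s r / 2 with hρ
  have hρ0 : 0 < ρ := by
    have := lt_min hs hr
    positivity
  have hρs : ρ < s := by
    have h2 := min_le_left s r
    have h3 := lt_min hs hr
    linarith
  have hρr : ρ < r := by
    have h2 := min_le_right s r
    have h3 := lt_min hs hr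
    linarith
  have hex : ∀ᶠ n in (𝒰 : Filter ℕ), ∃ c ∈ ball (0 : ℂ) ρ, φ n c = 0 := by
    by_contra hcon
    rw [← Ultrafilter.eventually_not] at hcon
    have h2 : ∀ᶠ n in (𝒰 : Filter ℕ), ∀ z ∈ ball (0 : ℂ) ρ, φ n z ≠ 0 := by
      filter_upwards [hcon] with n hn z hz h0
      exact hn ⟨z, hz, h0⟩
    have h3 := Pool.Agent.H62.Log.hurwitz 𝒰 (φ := φ) (ψ := fun z => z ^ M * κ z) (a := 0) (r := ρ)
      (hφ.mono fun n hn => hn.mono (ball_subset_ball hρr.le)) h2 (((differentiable_id.pow M).differentiableOn).mul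
        (hκ.mono (ball_subset_ball hρr.le))) (fun z z₀ hz₀ hz => by
          have hz₀' : z₀ ∈ ball (0 : ℂ) r := ball_subset_ball hρr.le hz₀
          refine hlim.tendsto_comp (hcont z₀ hz₀') hz₀' ?_
          exact tendsto_nhdsWithin_iff.2 ⟨hz, hz.eventually (isOpen_ball.mem_nhds hz₀')⟩)
    rcases h3 with h3 | h3
    · have h4 := h3 ((ρ / 2 : ℝ) : ℂ) (by
        rw [mem_ball_zero_iff, Complex.norm_real, Real.norm_of_nonneg (by positivity)]
        linarith)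
      have h5 : κ ((ρ / 2 : ℝ) : ℂ) ≠ 0 := hs' _ (by
        rw [mem_ball_zero_iff, Complex.norm_real, Real.norm_of_nonneg (by positivity)]
        linarith)
      have h6 : (((ρ / 2 : ℝ) : ℂ)) ≠ 0 := by
        rw [Ne, Complex.ofReal_eq_zero]
        positivity
      exact mul_ne_zero (pow_ne_zero M h6) h5 h4
    · refine h3 0 (mem_ball_self hρ0) ?_
      simp [Nat.one_le_iff_ne_zero.1 hM]
  have hex' : ∀ n, ∃ c : ℂ, (∃ c ∈ ball (0 : ℂ) ρ, φ n c = 0) → c ∈ ball (0 : ℂ) ρ ∧ φ n c = 0 := by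
    intro n
    by_cases h : ∃ c ∈ ball (0 : ℂ) ρ, φ n c = 0
    · obtain ⟨c, hc⟩ := h
      exact ⟨c, fun _ => hc⟩
    · exact ⟨0, fun h' => absurd h' h⟩
  choose c hc using hex'
  have hcc : ∀ᶠ n in (𝒰 : Filter ℕ), c n ∈ ball (0 : ℂ) ρ ∧ φ n (c n) = 0 := by
    filter_upwards [hex] with n hn
    exact hc n hn
  obtain ⟨c₀, hc₀, hle⟩ := (isCompact_closedBall (0 : ℂ) ρ).ultrafilter_le_nhds (𝒰.map c) (by
    rw [le_principal_iff, Ultrafilter.coe_map, Filter.mem_map]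
    filter_upwards [hcc] with n hn
    exact ball_subset_closedBall hn.1)
  have hlimc : Tendsto c 𝒰 (𝓝 c₀) := by rwa [Ultrafilter.coe_map] at hle
  have hc₀r : c₀ ∈ ball (0 : ℂ) r := closedBall_subset_ball hρr hc₀
  have h4 : Tendsto (fun n => φ n (c n)) 𝒰 (𝓝 (c₀ ^ M * κ c₀)) := by
    refine hlim.tendsto_comp (hcont c₀ hc₀r) hc₀r ?_
    exact tendsto_nhdsWithin_iff.2 ⟨hlimc, hlimc.eventually (isOpen_ball.mem_nhds hc₀r)⟩
  have h5 : Tendsto (fun n => φ n (c n)) 𝒰 (𝓝 0) := tendsto_const_nhds.congr' (hcc.mono fun n hn => hn.2.symm)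
  have h6 := tendsto_nhds_unique h4 h5
  have h7 : κ c₀ ≠ 0 := hs' _ (closedBall_subset_ball hρs hc₀)
  have h8 : c₀ = 0 := by
    rcases mul_eq_zero.1 h6 with h | h
    · exact pow_eq_zero_iff (Nat.one_le_iff_ne_zero.1 hM) |>.1 h
    · exact absurd h h7
  rw [h8] at hlimc
  exact ⟨c, hlimc, hcc.mono fun n hn => hn.2⟩

/-- locally uniform convergence and a shift of the centre -/
theorem shift_unif {𝒰 : Ultrafilter ℕ} {G : ℕ → ℂ → E} {Γ : ℂ → E} {r : ℝ} (hr : 0 < r) (hΓ : ContinuousOn Γ (ball 0 r))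
    (hlim : TendstoLocallyUniformlyOn G Γ 𝒰 (ball 0 r)) {c : ℕ → ℂ} (hc : Tendsto c 𝒰 (𝓝 0)) :
    ∀ ε : ℝ, 0 < ε → ∀ᶠ n in (𝒰 : Filter ℕ), ∀ z ∈ ball (0 : ℂ) (r / 2), ‖G n (c n + z) - Γ z‖ ≤ ε := by
  intro ε hε
  have hK : IsCompact (closedBall (0 : ℂ) (3 * r / 4)) := isCompact_closedBall 0 _
  have hsub : closedBall (0 : ℂ) (3 * r / 4) ⊆ ball 0 r := closedBall_subset_ball (by linarith)
  have h1 := (tendstoLocallyUniformlyOn_iff_forall_isCompact isOpen_ball).1 hlim _ hsub hK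
  rw [Metric.tendstoUniformlyOn_iff] at h1
  have h2 : UniformContinuousOn Γ (closedBall (0 : ℂ) (3 * r / 4)) := hK.uniformContinuousOn_of_continuous (hΓ.mono hsub)
  rw [Metric.uniformContinuousOn_iff] at h2
  obtain ⟨δ, hδ, h3⟩ := h2 (ε / 2) (by linarith)
  filter_upwards [h1 (ε / 2) (by linarith), Metric.tendsto_nhds.1 hc (min δ (r / 4)) (lt_min hδ (by linarith))] with n h4 h5 z hz
  rw [dist_zero_right] at h5
  rw [mem_ball_zero_iff] at hz
  have h6 : c n + z ∈ closedBall (0 : ℂ) (3 * r / 4) := by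
    rw [mem_closedBall_zero_iff]
    have h7 := norm_add_le (c n) z
    have h8 := h5.le.trans (min_le_right _ _)
    linarith
  have h7 : z ∈ closedBall (0 : ℂ) (3 * r / 4) := by
    rw [mem_closedBall_zero_iff]
    linarith
  have h8 := h4 _ h6
  have h9 := h3 _ h6 _ h7 (by
    rw [dist_eq_norm, add_sub_cancel_right]
    exact h5.trans_le (min_le_left _ _))
  rw [dist_eq_norm] at h8 h9
  have h10 : G n (c n + z) - Γ z = -(Γ (c n + z) - G n (c n + z)) + (Γ (c n + z) - Γ z) := by abel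
  rw [h10]
  refine (norm_add_le _ _).trans ?_
  rw [norm_neg]
  linarith

/-- bounded sequences have limits along an ultrafilter -/
theorem exists_lim_of_bdd (𝒰 : Ultrafilter ℕ) {b : ℕ → E} {C : ℝ} (hb : ∀ᶠ n in (𝒰 : Filter ℕ), ‖b n‖ ≤ C) :
    ∃ b₀ : E, Tendsto b 𝒰 (𝓝 b₀) := by
  haveI : ProperSpace E := FiniteDimensional.proper ℂ E
  obtain ⟨b₀, hb₀, hle⟩ := (isCompact_closedBall (0 : E) C).ultrafilter_le_nhds (𝒰.map b) (by
    rw [le_principal_iff, Ultrafilter.coe_map, Filter.mem_map]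
    filter_upwards [hb] with n hn
    rw [Set.mem_preimage, mem_closedBall_zero_iff]
    exact hn)
  refine ⟨b₀, ?_⟩
  rwa [Ultrafilter.coe_map] at hle

end Pool.Agent.H13.G0
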