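import Pool.Agent.H13.G0.Scal

/-!
# G0 ScalB: the scaling theorem (STEP 1 of note 4435)
-/

set_option autoImplicit false

open Topology Filter Metric Finset

namespace Pool.Agent.H13.G0

variable {E F : Type*} [NormedAddCommGroup E] [NormedSpace ℂ E] [FiniteDimensional ℂ E] [NormedAddCommGroup F] [NormedSpace ℂ F]

/-- the rescaled functions converge to a polynomial -/
theorem resc {𝒰 : Ultrafilter ℕ} {φ : ℕ → ℂ → E} {ψ : ℂ → E} {ρ : ℝ} (hρ : 0 < ρ)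
    (hφ : ∀ᶠ n in (𝒰 : Filter ℕ), DifferentiableOn ℂ (φ n) (ball 0 ρ)) (hψ : DifferentiableOn ℂ ψ (ball 0 ρ)) {B : ℝ} (hB : ∀ z ∈ ball (0 : ℂ) ρ, ‖ψ z‖ ≤ B)
    (h : ∀ ε : ℝ, 0 < ε → ∀ᶠ n in (𝒰 : Filter ℕ), ∀ z ∈ ball (0 : ℂ) ρ, ‖φ n z - ψ z‖ ≤ ε)
    (L : E →L[ℂ] F) {lam : ℕ → ℝ} (hlam : Tendsto lam 𝒰 (𝓝 0)) (hpos : ∀ᶠ n in (𝒰 : Filter ℕ), 0 < lam n) (m : ℕ) {b : ℕ → F}
    (hb : ∀ l ≤ m, Tendsto (fun n => ((lam n : ℂ) ^ (m - l))⁻¹ • L (tr l (φ n) 0)) 𝒰 (𝓝 (b l))) (A : ℝ) :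
    TendstoUniformlyOn (fun n u => ((lam n : ℂ) ^ m)⁻¹ • L (φ n (lam n * u))) (fun u => ∑ l ∈ range (m + 1), u ^ l • b l) 𝒰 (closedBall 0 A) := by
  haveI : CompleteSpace E := FiniteDimensional.complete ℂ E
  set A' : ℝ := max A 1 with hA'
  have hA'1 : 1 ≤ A' := le_max_right _ _
  have hA'0 : 0 < A' := by linarith
  set C : ℝ := (2 / ρ) ^ (m + 1) * (B + 1) with hC
  have hB0 : 0 ≤ B := (norm_nonneg _).trans (hB 0 (mem_ball_self hρ))
  have hC0 : 0 ≤ C := by positivity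
  -- the error
  have herr : Tendsto (fun n => ∑ l ∈ range (m + 1), A' ^ l * ‖((lam n : ℂ) ^ (m - l))⁻¹ • L (tr l (φ n) 0) - b l‖ + lam n * (A' ^ (m + 1) * (‖L‖ * C))) 𝒰
      (𝓝 (∑ l ∈ range (m + 1), A' ^ l * 0 + 0 * (A' ^ (m + 1) * (‖L‖ * C)))) := by
    refine Tendsto.add (tendsto_finset_sum _ fun l hl => ?_) (hlam.mul_const _)
    refine Tendsto.const_mul _ ?_
    have h1 := (hb l (Nat.lt_succ_iff.1 (mem_range.1 hl))).sub_const (b l)
    rw [sub_self] at h1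
    exact tendsto_zero_iff_norm_tendsto_zero.1 h1
  simp only [mul_zero, sum_const_zero, zero_mul, add_zero] at herr
  rw [Metric.tendstoUniformlyOn_iff]
  intro ε hε
  have hsmall : ∀ᶠ n in (𝒰 : Filter ℕ), lam n < ρ / A' := hlam.eventually (gt_mem_nhds (by positivity))
  filter_upwards [hφ, hpos, hsmall, h 1 one_pos, herr.eventually (gt_mem_nhds hε)] with n h1 h2 h3 h4 h5 u hu
  rw [mem_closedBall_zero_iff] at hu
  have hu' : ‖u‖ ≤ A' := hu.trans (le_max_left _ _)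
  have hz : (lam n : ℂ) * u ∈ ball (0 : ℂ) ρ := by
    rw [mem_ball_zero_iff, norm_mul, Complex.norm_real, Real.norm_of_nonneg h2.le]
    rw [lt_div_iff₀ hA'0] at h3
    exact lt_of_le_of_lt (mul_le_mul_of_nonneg_left hu' h2.le) h3
  have hbd : ∀ z ∈ ball (0 : ℂ) ρ, ‖φ n z‖ ≤ B + 1 := by
    intro z hz
    have e1 := h4 z hz
    have e2 := hB z hz
    have e3 := norm_add_le (φ n z - ψ z) (ψ z)
    rw [sub_add_cancel] at e3
    linarith
  have h6 : ‖tr (m + 1) (φ n) (lam n * u)‖ ≤ C := norm_tr_le hρ h1 hbd (m + 1) _ hz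
  have hl0 : (lam n : ℂ) ≠ 0 := by
    rw [Ne, Complex.ofReal_eq_zero]
    exact h2.ne'
  have h7 : ((lam n : ℂ) ^ m)⁻¹ • L (φ n (lam n * u)) =
      ∑ l ∈ range (m + 1), u ^ l • (((lam n : ℂ) ^ (m - l))⁻¹ • L (tr l (φ n) 0)) + ((lam n : ℂ) * u ^ (m + 1)) • L (tr (m + 1) (φ n) (lam n * u)) := by
    conv_lhs => rw [tr_sum (m + 1) (φ n) (lam n * u)]
    rw [map_add, map_sum, smul_add, smul_sum]
    congr 1
    · refine sum_congr rfl fun l hl => ?_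
      have hlm : l ≤ m := Nat.lt_succ_iff.1 (mem_range.1 hl)
      rw [map_smul, smul_smul, smul_smul, mul_pow]
      congr 1
      have e1 : (lam n : ℂ) ^ m = (lam n : ℂ) ^ (m - l) * (lam n : ℂ) ^ l := by
        rw [← pow_add]
        congr 1
        omega
      rw [e1]
      have e2 : (lam n : ℂ) ^ (m - l) ≠ 0 := pow_ne_zero _ hl0
      have e3 : (lam n : ℂ) ^ l ≠ 0 := pow_ne_zero _ hl0
      field_simp
    · rw [map_smul, smul_smul, mul_pow]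
      congr 1
      have e2 : (lam n : ℂ) ^ m ≠ 0 := pow_ne_zero _ hl0
      rw [pow_succ (lam n : ℂ) m]
      field_simp
  rw [dist_comm, dist_eq_norm, h7, add_sub_right_comm, ← sum_sub_distrib]
  refine lt_of_le_of_lt ?_ h5
  refine (norm_add_le _ _).trans (add_le_add ?_ ?_)
  · refine (norm_sum_le _ _).trans (sum_le_sum fun l _ => ?_)
    rw [← smul_sub, norm_smul, norm_pow]
    exact mul_le_mul_of_nonneg_right (pow_le_pow_left₀ (norm_nonneg _) hu' l) (norm_nonneg _)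
  · rw [norm_smul, norm_mul, norm_pow, Complex.norm_real, Real.norm_of_nonneg h2.le, mul_assoc]
    refine mul_le_mul_of_nonneg_left (mul_le_mul (pow_le_pow_left₀ (norm_nonneg _) hu' _) ?_ (norm_nonneg _) (by positivity)) h2.le
    exact (L.le_opNorm _).trans (mul_le_mul_of_nonneg_left h6 (norm_nonneg _))

/-- a weight -/
theorem wt_le {t S : ℝ} {w : ℕ} (hw : 1 ≤ w) (ht : 0 ≤ t) (h : t ^ ((w : ℝ)⁻¹) ≤ S) : t ≤ S ^ w := by
  have h1 : (t ^ ((w : ℝ)⁻¹)) ^ w = t := Real.rpow_inv_natCast_pow ht (by omega)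
  rw [← h1]
  exact pow_le_pow_left₀ (Real.rpow_nonneg ht _) h w

theorem wt_smul {x : E} {S : ℝ} {w : ℕ} (hw : 1 ≤ w) (hS : 0 < S) :
    ‖((S : ℂ) ^ w)⁻¹ • x‖ ^ ((w : ℝ)⁻¹) = S⁻¹ * ‖x‖ ^ ((w : ℝ)⁻¹) := by
  rw [norm_smul, norm_inv, norm_pow, Complex.norm_real, Real.norm_of_nonneg hS.le, Real.mul_rpow (by positivity) (norm_nonneg _),
    Real.inv_rpow (by positivity), Real.pow_rpow_inv_natCast hS.le (by omega)]

/-- `Σ ‖x l‖ ^ (1 / (m - l))` over `l < m` -/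
noncomputable def wsum (m : ℕ) (x : ℕ → E) : ℝ := ∑ l ∈ range m, ‖x l‖ ^ (((m - l : ℕ) : ℝ)⁻¹)

theorem wsum_nonneg (m : ℕ) (x : ℕ → E) : 0 ≤ wsum m x := sum_nonneg fun _ _ => Real.rpow_nonneg (norm_nonneg _) _

theorem wsum_tendsto {𝒰 : Filter ℕ} {m : ℕ} {x : ℕ → ℕ → E} {x₀ : ℕ → E} (h : ∀ l < m, Tendsto (fun n => x n l) 𝒰 (𝓝 (x₀ l))) :
    Tendsto (fun n => wsum m (x n)) 𝒰 (𝓝 (wsum m x₀)) := by
  refine tendsto_finset_sum _ fun l hl => ?_
  refine (h l (mem_range.1 hl)).norm.rpow_const (Or.inr ?_)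
  positivity

theorem wsum_eq_zero {m : ℕ} {x : ℕ → E} (h : ∀ l < m, x l = 0) : wsum m x = 0 := by
  refine sum_eq_zero fun l hl => ?_
  have hl' := mem_range.1 hl
  rw [h l hl', norm_zero, Real.zero_rpow]
  have : ((m - l : ℕ) : ℝ) ≠ 0 := by
    rw [Nat.cast_ne_zero]
    omega
  exact inv_ne_zero this

theorem wsum_smul {m : ℕ} {x : ℕ → E} {S : ℝ} (hS : 0 < S) : wsum m (fun l => ((S : ℂ) ^ (m - l))⁻¹ • x l) = S⁻¹ * wsum m x := by
  unfold wsum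
  rw [mul_sum]
  refine sum_congr rfl fun l hl => ?_
  have hl' := mem_range.1 hl
  exact wt_smul (by omega) hS

theorem le_of_wsum {m : ℕ} {x : ℕ → E} {S : ℝ} (h : wsum m x ≤ S) {l : ℕ} (hl : l < m) : ‖x l‖ ≤ S ^ (m - l) := by
  refine wt_le (by omega) (norm_nonneg _) (le_trans ?_ h)
  exact single_le_sum (f := fun l => ‖x l‖ ^ (((m - l : ℕ) : ℝ)⁻¹)) (fun i _ => Real.rpow_nonneg (norm_nonneg _) _) (mem_range.2 hl)

theorem norm_resc_le {m : ℕ} {x : ℕ → E} {S : ℝ} (hS : 0 < S) (h : wsum m x ≤ S) {l : ℕ} (hl : l < m) : ‖((S : ℂ) ^ (m - l))⁻¹ • x l‖ ≤ 1 := by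
  rw [norm_smul, norm_inv, norm_pow, Complex.norm_real, Real.norm_of_nonneg hS.le, inv_mul_le_iff₀ (by positivity), mul_one]
  exact le_of_wsum h hl

/-- the projection along `x₀` -/
noncomputable def prj (a : E →L[ℂ] ℂ) (x₀ : E) : E →L[ℂ] E := ContinuousLinearMap.id ℂ E - a.smulRight x₀

theorem prj_apply (a : E →L[ℂ] ℂ) (x₀ x : E) : prj a x₀ x = x - a x • x₀ := rfl

/-- STEP 1: the scaling theorem -/
theorem scaling (𝒰 : Ultrafilter ℕ) {G : ℕ → ℂ → E} {K : ℂ → E} {r : ℝ} {M : ℕ} (hr : 0 < r) (hM : 1 ≤ M)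
    (hG : ∀ᶠ n in (𝒰 : Filter ℕ), DifferentiableOn ℂ (G n) (ball 0 r)) (hG0 : ∀ᶠ n in (𝒰 : Filter ℕ), ∀ z ∈ ball (0 : ℂ) r, G n z ≠ 0)
    (hK : DifferentiableOn ℂ K (ball 0 r)) (hlim : TendstoLocallyUniformlyOn G (fun z => z ^ M • K z) 𝒰 (ball 0 r))
    (a : E →L[ℂ] ℂ) (ha : a (K 0) = 1) :
    ∃ (c : ℕ → ℂ) (lam : ℕ → ℝ) (p : ℕ → ℂ) (q : ℕ → E), Tendsto c 𝒰 (𝓝 0) ∧ Tendsto lam 𝒰 (𝓝 0) ∧ (∀ᶠ n in (𝒰 : Filter ℕ), 0 < lam n) ∧
      (∀ A : ℝ, TendstoUniformlyOn (fun n u => ((lam n : ℂ) ^ M)⁻¹ • a (G n (c n + lam n * u)))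
        (fun u => ∑ l ∈ range (M + 1), u ^ l • p l) 𝒰 (closedBall 0 A)) ∧
      (∀ A : ℝ, TendstoUniformlyOn (fun n u => ((lam n : ℂ) ^ (M + 1))⁻¹ • prj a (K 0) (G n (c n + lam n * u)))
        (fun u => ∑ l ∈ range (M + 2), u ^ l • q l) 𝒰 (closedBall 0 A)) ∧
      p 0 = 0 ∧ p M = 1 ∧ q (M + 1) = prj a (K 0) (deriv K 0) ∧ (∀ l ≤ M + 1, a (q l) = 0) ∧
      ¬ ((∀ l < M, p l = 0) ∧ ∀ l < M + 1, q l = 0) := by
  haveI : CompleteSpace E := FiniteDimensional.complete ℂ E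
  have hKc : ContinuousOn K (ball 0 r) := hK.continuousOn
  have hΓd : DifferentiableOn ℂ (fun z : ℂ => z ^ M • K z) (ball 0 r) := ((differentiable_id.pow M).differentiableOn).smul hK
  have hΓc : ContinuousOn (fun z : ℂ => z ^ M • K z) (ball 0 r) := hΓd.continuousOn
  have ha0 : a (K 0) ≠ 0 := by rw [ha]; exact one_ne_zero
  -- the centres
  obtain ⟨c, hc, hc0⟩ := exists_zero (𝒰 := 𝒰) (φ := fun n z => a (G n z)) (κ := fun z => a (K z)) hr hM
    (hG.mono fun n hn => a.differentiable.comp_differentiableOn hn) (a.differentiable.comp_differentiableOn hK) ha0 (by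
      have h1 : UniformContinuous a := a.uniformContinuous
      have h2 := h1.comp_tendstoLocallyUniformlyOn hlim
      refine h2.congr_right ?_
      intro z _
      simp)
  set ρ : ℝ := r / 2 with hρ
  have hρ0 : 0 < ρ := by positivity
  have hρr : ρ < r := by rw [hρ]; linarith
  set φ : ℕ → ℂ → E := fun n z => G n (c n + z) with hφ
  set ψ : ℂ → E := fun z => z ^ M • K z with hψ
  have hun : ∀ ε : ℝ, 0 < ε → ∀ᶠ n in (𝒰 : Filter ℕ), ∀ z ∈ ball (0 : ℂ) ρ, ‖φ n z - ψ z‖ ≤ ε := shift_unif hr hΓc hlim hc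
  have hcsmall : ∀ᶠ n in (𝒰 : Filter ℕ), ‖c n‖ < r / 2 := by
    have := Metric.tendsto_nhds.1 hc (r / 2) (by positivity)
    filter_upwards [this] with n hn
    rwa [dist_zero_right] at hn
  have hmem : ∀ᶠ n in (𝒰 : Filter ℕ), ∀ z ∈ ball (0 : ℂ) ρ, c n + z ∈ ball (0 : ℂ) r := by
    filter_upwards [hcsmall] with n hn z hz
    rw [mem_ball_zero_iff] at hz ⊢
    have := norm_add_le (c n) z
    rw [hρ] at hz
    linarith
  have hφd : ∀ᶠ n in (𝒰 : Filter ℕ), DifferentiableOn ℂ (φ n) (ball 0 ρ) := by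
    filter_upwards [hG, hmem] with n h1 h2
    exact h1.comp ((differentiable_const _).add differentiable_id).differentiableOn h2
  have hψd : DifferentiableOn ℂ ψ (ball 0 ρ) := hΓd.mono (ball_subset_ball hρr.le)
  have hKρ : DifferentiableOn ℂ K (ball 0 ρ) := hK.mono (ball_subset_ball hρr.le)
  obtain ⟨B, hB⟩ : ∃ B : ℝ, ∀ z ∈ ball (0 : ℂ) ρ, ‖ψ z‖ ≤ B := by
    obtain ⟨B, hB⟩ := (isCompact_closedBall (0 : ℂ) ρ).exists_bound_of_continuousOn (hΓc.mono (closedBall_subset_ball hρr))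
    exact ⟨B, fun z hz => hB z (ball_subset_closedBall hz)⟩
  have htr : ∀ k, Tendsto (fun n => tr k (φ n) 0) 𝒰 (𝓝 (tr k ψ 0)) := tendsto_tr_zero hρ0 hφd hψd hun
  set π : E →L[ℂ] E := prj a (K 0) with hπ
  -- the scale
  set α : ℕ → ℕ → ℂ := fun n l => a (tr l (φ n) 0) with hα
  set β : ℕ → ℕ → E := fun n l => π (tr l (φ n) 0) with hβ
  have hα0 : ∀ l < M, Tendsto (fun n => α n l) 𝒰 (𝓝 0) := by
    intro l hl
    have h1 := (a.continuous.tendsto _).comp (htr l)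
    rw [hψ, tr_pow_smul_zero hρ0 hKρ hl, map_zero] at h1
    exact h1
  have hβ0 : ∀ l < M + 1, Tendsto (fun n => β n l) 𝒰 (𝓝 0) := by
    intro l hl
    have h1 := (π.continuous.tendsto _).comp (htr l)
    rcases Nat.lt_succ_iff_lt_or_eq.1 hl with h2 | h2
    · rw [hψ, tr_pow_smul_zero hρ0 hKρ h2, map_zero] at h1
      exact h1
    · subst h2
      rw [hψ, tr_pow_smul_self hρ0 hKρ, hπ, prj_apply, ha, one_smul, sub_self] at h1
      exact h1
  set lam : ℕ → ℝ := fun n => wsum M (α n) + wsum (M + 1) (β n) with hlam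
  have hlam0 : Tendsto lam 𝒰 (𝓝 0) := by
    have h1 := (wsum_tendsto (x := α) (x₀ := fun _ => 0) hα0).add (wsum_tendsto (x := β) (x₀ := fun _ => 0) hβ0)
    rw [wsum_eq_zero (fun _ _ => rfl), wsum_eq_zero (fun _ _ => rfl), add_zero] at h1
    exact h1
  have hpos : ∀ᶠ n in (𝒰 : Filter ℕ), 0 < lam n := by
    filter_upwards [hc0, hG0, hcsmall] with n h1 h2 h3
    have h4 : G n (c n) ≠ 0 := h2 (c n) (by rw [mem_ball_zero_iff]; linarith)
    have h5 : β n 0 = G n (c n) := by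
      change π (tr 0 (φ n) 0) = G n (c n)
      rw [tr_zero, hπ, prj_apply]
      change G n (c n + 0) - a (G n (c n + 0)) • K 0 = G n (c n)
      rw [add_zero, h1, zero_smul, sub_zero]
    have h6 : 0 < ‖β n 0‖ ^ (((M + 1 - 0 : ℕ) : ℝ)⁻¹) := by
      refine Real.rpow_pos_of_pos ?_ _
      rw [h5]
      exact norm_pos_iff.2 h4
    have h7 : ‖β n 0‖ ^ (((M + 1 - 0 : ℕ) : ℝ)⁻¹) ≤ wsum (M + 1) (β n) :=
      single_le_sum (f := fun l => ‖β n l‖ ^ (((M + 1 - l : ℕ) : ℝ)⁻¹)) (fun i _ => Real.rpow_nonneg (norm_nonneg _) _) (mem_range.2 (Nat.succ_pos M))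
    have h8 := wsum_nonneg M (α n)
    change 0 < wsum M (α n) + wsum (M + 1) (β n)
    linarith
  -- the limits of the coefficients
  have hp : ∀ l, ∃ b : ℂ, l ≤ M → Tendsto (fun n => ((lam n : ℂ) ^ (M - l))⁻¹ • a (tr l (φ n) 0)) 𝒰 (𝓝 b) := by
    intro l
    by_cases hl : l < M
    · obtain ⟨b, hb⟩ := exists_lim_of_bdd 𝒰 (b := fun n => ((lam n : ℂ) ^ (M - l))⁻¹ • a (tr l (φ n) 0)) (C := 1) (by
        filter_upwards [hpos] with n hn
        exact norm_resc_le (x := α n) hn (le_add_of_nonneg_right (wsum_nonneg _ _)) hl)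
      exact ⟨b, fun _ => hb⟩
    · refine ⟨a (tr l ψ 0), fun h => ?_⟩
      have e : M - l = 0 := by omega
      simp only [e, pow_zero, inv_one, one_smul]
      exact (a.continuous.tendsto _).comp (htr l)
  have hq : ∀ l, ∃ b : E, l ≤ M + 1 → Tendsto (fun n => ((lam n : ℂ) ^ (M + 1 - l))⁻¹ • π (tr l (φ n) 0)) 𝒰 (𝓝 b) := by
    intro l
    by_cases hl : l < M + 1
    · obtain ⟨b, hb⟩ := exists_lim_of_bdd 𝒰 (b := fun n => ((lam n : ℂ) ^ (M + 1 - l))⁻¹ • π (tr l (φ n) 0)) (C := 1) (by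
        filter_upwards [hpos] with n hn
        exact norm_resc_le (x := β n) hn (le_add_of_nonneg_left (wsum_nonneg _ _)) hl)
      exact ⟨b, fun _ => hb⟩
    · refine ⟨π (tr l ψ 0), fun h => ?_⟩
      have e : M + 1 - l = 0 := by omega
      simp only [e, pow_zero, inv_one, one_smul]
      exact (π.continuous.tendsto _).comp (htr l)
  choose p hp using hp
  choose q hq using hq
  have hres1 : ∀ A : ℝ, TendstoUniformlyOn (fun n u => ((lam n : ℂ) ^ M)⁻¹ • a (φ n (lam n * u)))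
      (fun u => ∑ l ∈ range (M + 1), u ^ l • p l) 𝒰 (closedBall 0 A) := fun A =>
    resc hρ0 hφd hψd hB hun a hlam0 hpos M (b := p) (fun l hl => hp l hl) A
  have hres2 : ∀ A : ℝ, TendstoUniformlyOn (fun n u => ((lam n : ℂ) ^ (M + 1))⁻¹ • π (φ n (lam n * u)))
      (fun u => ∑ l ∈ range (M + 1 + 1), u ^ l • q l) 𝒰 (closedBall 0 A) := fun A =>
    resc hρ0 hφd hψd hB hun π hlam0 hpos (M + 1) (b := q) (fun l hl => hq l hl) A
  refine ⟨c, lam, p, q, hc, hlam0, hpos, hres1, hres2, ?_, ?_, ?_, ?_, ?_⟩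
  · -- `p 0 = 0`
    refine tendsto_nhds_unique (hp 0 (Nat.zero_le M)) (tendsto_const_nhds.congr' ?_)
    filter_upwards [hc0] with n hn
    change (0 : ℂ) = ((lam n : ℂ) ^ (M - 0))⁻¹ • a (G n (c n + 0))
    rw [add_zero, hn, smul_zero]
  · -- `p M = 1`
    refine tendsto_nhds_unique (hp M le_rfl) ?_
    have h1 := (a.continuous.tendsto _).comp (htr M)
    rw [hψ, tr_pow_smul_self hρ0 hKρ, ha] at h1
    simp only [Nat.sub_self, pow_zero, inv_one, one_smul]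
    exact h1
  · refine tendsto_nhds_unique (hq (M + 1) le_rfl) ?_
    have h1 := (π.continuous.tendsto _).comp (htr (M + 1))
    rw [hψ, tr_pow_smul_succ hρ0 hKρ] at h1
    simp only [Nat.sub_self, pow_zero, inv_one, one_smul]
    exact h1
  · intro l hl
    have h1 := (a.continuous.tendsto _).comp (hq l hl)
    refine tendsto_nhds_unique h1 (tendsto_const_nhds.congr fun n => ?_)
    change (0 : ℂ) = a (((lam n : ℂ) ^ (M + 1 - l))⁻¹ • π (tr l (φ n) 0))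
    rw [map_smul, hπ, prj_apply, map_sub, map_smul, ha, smul_eq_mul, smul_eq_mul, mul_one, sub_self, mul_zero]
  · rintro ⟨h1, h2⟩
    have h3 : Tendsto (fun n => wsum M (fun l => ((lam n : ℂ) ^ (M - l))⁻¹ • α n l) + wsum (M + 1) (fun l => ((lam n : ℂ) ^ (M + 1 - l))⁻¹ • β n l)) 𝒰
        (𝓝 (wsum M p + wsum (M + 1) q)) :=
      (wsum_tendsto (x := fun n l => ((lam n : ℂ) ^ (M - l))⁻¹ • α n l) (x₀ := p) fun l hl => hp l hl.le).add
        (wsum_tendsto (x := fun n l => ((lam n : ℂ) ^ (M + 1 - l))⁻¹ • β n l) (x₀ := q) fun l hl => hq l hl.le)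
    rw [wsum_eq_zero h1, wsum_eq_zero h2, add_zero] at h3
    have h4 : Tendsto (fun n => wsum M (fun l => ((lam n : ℂ) ^ (M - l))⁻¹ • α n l) + wsum (M + 1) (fun l => ((lam n : ℂ) ^ (M + 1 - l))⁻¹ • β n l)) 𝒰
        (𝓝 1) := by
      refine tendsto_const_nhds.congr' ?_
      filter_upwards [hpos] with n hn
      rw [wsum_smul hn, wsum_smul hn, ← mul_add]
      exact (inv_mul_cancel₀ hn.ne').symm
    exact zero_ne_one (tendsto_nhds_unique h3 h4)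

end Pool.Agent.H13.G0
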