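import Pool.Agent.H13.G0.ScalB

/-!
# G0 ScalG: scaling of a finite family of degenerating sequences of functions with weights

`f i n → z ^ w i • K i z`.  All Taylor coefficients of `f i n` at `c n` of degree less than `w i` are normalised by ONE scale `lam n`.
-/

set_option autoImplicit false

open Topology Filter Metric Finset

namespace Pool.Agent.H13.G0

variable {ι : Type*} [Fintype ι] {E : ι → Type*} [∀ i, NormedAddCommGroup (E i)] [∀ i, NormedSpace ℂ (E i)] [∀ i, FiniteDimensional ℂ (E i)]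

/-- the estimate on the neck, for one function -/
theorem neck_one {F : Type*} [NormedAddCommGroup F] [NormedSpace ℂ F] [CompleteSpace F] {𝒰 : Filter ℕ} {φ : ℕ → ℂ → F} {K : ℂ → F} {ρ : ℝ} (hρ : 0 < ρ) {w : ℕ}
    (hφ : ∀ᶠ n in 𝒰, DifferentiableOn ℂ (φ n) (ball 0 ρ)) (hK : DifferentiableOn ℂ K (ball 0 ρ))
    (h : ∀ ε : ℝ, 0 < ε → ∀ᶠ n in 𝒰, ∀ z ∈ ball (0 : ℂ) ρ, ‖φ n z - z ^ w • K z‖ ≤ ε)
    {lam : ℕ → ℝ} (hpos : ∀ᶠ n in 𝒰, 0 < lam n) (hl : ∀ᶠ n in 𝒰, ∀ l < w, ‖tr l (φ n) 0‖ ≤ lam n ^ (w - l)) {ε : ℝ} (hε : 0 < ε) :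
    ∃ R₀ δ : ℝ, 1 ≤ R₀ ∧ 0 < δ ∧ δ < ρ ∧ ∀ᶠ n in 𝒰, ∀ z : ℂ, R₀ * lam n ≤ ‖z‖ → ‖z‖ ≤ δ → ‖φ n z - z ^ w • K 0‖ ≤ ε * ‖z‖ ^ w := by
  have hψ : DifferentiableOn ℂ (fun z : ℂ => z ^ w • K z) (ball 0 ρ) := ((differentiable_id.pow w).differentiableOn).smul hK
  have hKc : ContinuousAt K 0 := (hK.continuousOn 0 (mem_ball_self hρ)).continuousAt (ball_mem_nhds 0 hρ)
  obtain ⟨δ₁, hδ₁, hδ₁'⟩ := Metric.continuousAt_iff.1 hKc (ε / 3) (by linarith)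
  set δ : ℝ := min (ρ / 2) (δ₁ / 2) with hδ
  have hδ0 : 0 < δ := lt_min (by linarith) (by linarith)
  have hδρ : δ < ρ := (min_le_left _ _).trans_lt (by linarith)
  set R₀ : ℝ := max 1 (3 * w / ε) with hR₀
  have hR1 : 1 ≤ R₀ := le_max_left _ _
  refine ⟨R₀, δ, hR1, hδ0, hδρ, ?_⟩
  filter_upwards [hφ, hpos, hl, tendsto_tr hρ hφ hψ h w (ε / 3) (by linarith)] with n h1 h2 h3 h4 z hz1 hz2
  have hzρ : z ∈ ball (0 : ℂ) ρ := by
    rw [mem_ball_zero_iff]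
    linarith
  have hz0 : 0 < ‖z‖ := lt_of_lt_of_le (mul_pos (by linarith) h2) hz1
  have h5 : φ n z - z ^ w • K 0 = ∑ l ∈ range w, z ^ l • tr l (φ n) 0 + z ^ w • ((tr w (φ n) z - K z) + (K z - K 0)) := by
    conv_lhs => rw [tr_sum w (φ n) z]
    rw [sub_add_sub_cancel, smul_sub]
    abel
  have h6 : ‖K z - K 0‖ ≤ ε / 3 := by
    have := hδ₁' (x := z) (by
      rw [dist_zero_right]
      have : δ ≤ δ₁ / 2 := min_le_right _ _
      linarith)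
    rw [dist_eq_norm] at this
    exact this.le
  have h7 : ‖tr w (φ n) z - K z‖ ≤ ε / 3 := by
    have := h4 z hzρ
    rwa [tr_pow_smul_self hρ hK w] at this
  have h8 : ‖∑ l ∈ range w, z ^ l • tr l (φ n) 0‖ ≤ ε / 3 * ‖z‖ ^ w := by
    have h9 : ∀ l ∈ range w, ‖z ^ l • tr l (φ n) 0‖ ≤ ‖z‖ ^ w * R₀⁻¹ := by
      intro l hl
      have hlw := mem_range.1 hl
      rw [norm_smul, norm_pow]
      have e1 : ‖tr l (φ n) 0‖ ≤ (‖z‖ * R₀⁻¹) ^ (w - l) := by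
        refine (h3 l hlw).trans (pow_le_pow_left₀ h2.le ?_ _)
        rw [← div_eq_mul_inv, le_div_iff₀ (by linarith)]
        linarith
      have e2 : (R₀⁻¹) ^ (w - l) ≤ R₀⁻¹ := by
        have e3 : R₀⁻¹ ≤ 1 := inv_le_one_of_one_le₀ hR1
        have e4 : 0 ≤ R₀⁻¹ := by positivity
        calc (R₀⁻¹) ^ (w - l) ≤ (R₀⁻¹) ^ 1 := pow_le_pow_of_le_one e4 e3 (by omega)
          _ = R₀⁻¹ := pow_one _
      calc ‖z‖ ^ l * ‖tr l (φ n) 0‖ ≤ ‖z‖ ^ l * (‖z‖ * R₀⁻¹) ^ (w - l) := mul_le_mul_of_nonneg_left e1 (by positivity)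
        _ = ‖z‖ ^ w * (R₀⁻¹) ^ (w - l) := by
          rw [mul_pow, ← mul_assoc, ← pow_add]
          congr 2
          omega
        _ ≤ ‖z‖ ^ w * R₀⁻¹ := mul_le_mul_of_nonneg_left e2 (by positivity)
    refine (norm_sum_le _ _).trans ((sum_le_sum h9).trans ?_)
    rw [sum_const, card_range, nsmul_eq_mul]
    have e1 : 3 * (w : ℝ) / ε ≤ R₀ := le_max_right _ _
    rw [div_le_iff₀ hε] at e1
    have e2 : (w : ℝ) * R₀⁻¹ ≤ ε / 3 := by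
      rw [← div_eq_mul_inv, div_le_iff₀ (by linarith)]
      linarith
    calc (w : ℝ) * (‖z‖ ^ w * R₀⁻¹) = ((w : ℝ) * R₀⁻¹) * ‖z‖ ^ w := by ring
      _ ≤ ε / 3 * ‖z‖ ^ w := mul_le_mul_of_nonneg_right e2 (by positivity)
  rw [h5]
  refine (norm_add_le _ _).trans ?_
  have h10 : ‖z ^ w • ((tr w (φ n) z - K z) + (K z - K 0))‖ ≤ ‖z‖ ^ w * (ε / 3 + ε / 3) := by
    rw [norm_smul, norm_pow]
    refine mul_le_mul_of_nonneg_left ?_ (by positivity)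
    exact (norm_add_le _ _).trans (add_le_add h7 h6)
  have h11 : ‖z‖ ^ w * (ε / 3 + ε / 3) = ε / 3 * ‖z‖ ^ w + ε / 3 * ‖z‖ ^ w := by ring
  have h12 : ε * ‖z‖ ^ w = ε / 3 * ‖z‖ ^ w + (ε / 3 * ‖z‖ ^ w + ε / 3 * ‖z‖ ^ w) := by ring
  rw [h12]
  linarith

/-- the general scaling theorem -/
theorem scaling_family (𝒰 : Ultrafilter ℕ) {f : ∀ i, ℕ → ℂ → E i} {K : ∀ i, ℂ → E i} {w : ι → ℕ} {r : ℝ} (hr : 0 < r)
    (hf : ∀ i, ∀ᶠ n in (𝒰 : Filter ℕ), DifferentiableOn ℂ (f i n) (ball 0 r)) (hK : ∀ i, DifferentiableOn ℂ (K i) (ball 0 r))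
    (hlim : ∀ i, TendstoLocallyUniformlyOn (f i) (fun z => z ^ w i • K i z) 𝒰 (ball 0 r))
    {c : ℕ → ℂ} (hc : Tendsto c 𝒰 (𝓝 0)) (hne : ∀ᶠ n in (𝒰 : Filter ℕ), ∃ i, 1 ≤ w i ∧ f i n (c n) ≠ 0) :
    ∃ (lam : ℕ → ℝ) (q : ∀ i, ℕ → E i), Tendsto lam 𝒰 (𝓝 0) ∧ (∀ᶠ n in (𝒰 : Filter ℕ), 0 < lam n) ∧
      (∀ i, ∀ A : ℝ, TendstoUniformlyOn (fun n u => ((lam n : ℂ) ^ w i)⁻¹ • f i n (c n + lam n * u))
        (fun u => ∑ l ∈ range (w i + 1), u ^ l • q i l) 𝒰 (closedBall 0 A)) ∧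
      (∀ i, q i (w i) = K i 0) ∧ ¬ (∀ i, ∀ l < w i, q i l = 0) ∧
      (∀ i, ∀ l ≤ w i, Tendsto (fun n => ((lam n : ℂ) ^ (w i - l))⁻¹ • tr l (fun z => f i n (c n + z)) 0) 𝒰 (𝓝 (q i l))) ∧
      ∀ ε : ℝ, 0 < ε → ∃ R₀ δ : ℝ, 1 ≤ R₀ ∧ 0 < δ ∧ δ < r / 2 ∧ ∀ᶠ n in (𝒰 : Filter ℕ), ∀ i, ∀ z : ℂ, R₀ * lam n ≤ ‖z‖ → ‖z‖ ≤ δ →
        ‖f i n (c n + z) - z ^ w i • K i 0‖ ≤ ε * ‖z‖ ^ w i := by
  classical
  haveI : ∀ i, CompleteSpace (E i) := fun i => FiniteDimensional.complete ℂ (E i)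
  have hΓd : ∀ i, DifferentiableOn ℂ (fun z : ℂ => z ^ w i • K i z) (ball 0 r) := fun i =>
    ((differentiable_id.pow (w i)).differentiableOn).smul (hK i)
  set ρ : ℝ := r / 2 with hρ
  have hρ0 : 0 < ρ := by positivity
  have hρr : ρ < r := by rw [hρ]; linarith
  set φ : ∀ i, ℕ → ℂ → E i := fun i n z => f i n (c n + z) with hφ
  set ψ : ∀ i, ℂ → E i := fun i z => z ^ w i • K i z with hψ
  have hun : ∀ i, ∀ ε : ℝ, 0 < ε → ∀ᶠ n in (𝒰 : Filter ℕ), ∀ z ∈ ball (0 : ℂ) ρ, ‖φ i n z - ψ i z‖ ≤ ε := fun i =>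
    shift_unif hr (hΓd i).continuousOn (hlim i) hc
  have hcsmall : ∀ᶠ n in (𝒰 : Filter ℕ), ‖c n‖ < r / 2 := by
    have := Metric.tendsto_nhds.1 hc (r / 2) (by positivity)
    filter_upwards [this] with n hn
    rwa [dist_zero_right] at hn
  have hmem : ∀ᶠ n in (𝒰 : Filter ℕ), ∀ z ∈ ball (0 : ℂ) ρ, c n + z ∈ ball (0 : ℂ) r := by
    filter_upwards [hcsmall] with n hn z hz
    rw [mem_ball_zero_iff] at hz ⊢
    have := norm_add_le (c n) z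
    rw [hρ] at hz
    linarith
  have hφd : ∀ i, ∀ᶠ n in (𝒰 : Filter ℕ), DifferentiableOn ℂ (φ i n) (ball 0 ρ) := by
    intro i
    filter_upwards [hf i, hmem] with n h1 h2
    exact h1.comp ((differentiable_const _).add differentiable_id).differentiableOn h2
  have hψd : ∀ i, DifferentiableOn ℂ (ψ i) (ball 0 ρ) := fun i => (hΓd i).mono (ball_subset_ball hρr.le)
  have hKρ : ∀ i, DifferentiableOn ℂ (K i) (ball 0 ρ) := fun i => (hK i).mono (ball_subset_ball hρr.le)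
  have hB : ∀ i, ∃ B : ℝ, ∀ z ∈ ball (0 : ℂ) ρ, ‖ψ i z‖ ≤ B := by
    intro i
    obtain ⟨B, hB⟩ := (isCompact_closedBall (0 : ℂ) ρ).exists_bound_of_continuousOn ((hΓd i).continuousOn.mono (closedBall_subset_ball hρr))
    exact ⟨B, fun z hz => hB z (ball_subset_closedBall hz)⟩
  choose B hB using hB
  have htr : ∀ i k, Tendsto (fun n => tr k (φ i n) 0) 𝒰 (𝓝 (tr k (ψ i) 0)) := fun i => tendsto_tr_zero hρ0 (hφd i) (hψd i) (hun i)
  -- the scale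
  set α : ∀ i, ℕ → ℕ → E i := fun i n l => tr l (φ i n) 0 with hα
  have hα0 : ∀ i, ∀ l < w i, Tendsto (fun n => α i n l) 𝒰 (𝓝 0) := by
    intro i l hl
    have h1 := htr i l
    rw [hψ, tr_pow_smul_zero hρ0 (hKρ i) hl] at h1
    exact h1
  set lam : ℕ → ℝ := fun n => ∑ i, wsum (w i) (α i n) with hlam
  have hlam0 : Tendsto lam 𝒰 (𝓝 0) := by
    have h1 : Tendsto (fun n => ∑ i, wsum (w i) (α i n)) 𝒰 (𝓝 (∑ _i : ι, (0 : ℝ))) := by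
      refine tendsto_finset_sum _ fun i _ => ?_
      have h2 := wsum_tendsto (x := α i) (x₀ := fun _ => 0) (hα0 i)
      rwa [wsum_eq_zero (fun _ _ => rfl)] at h2
    rwa [sum_const_zero] at h1
  have hle : ∀ n i, wsum (w i) (α i n) ≤ lam n := fun n i =>
    single_le_sum (f := fun i => wsum (w i) (α i n)) (fun j _ => wsum_nonneg _ _) (mem_univ i)
  have hpos : ∀ᶠ n in (𝒰 : Filter ℕ), 0 < lam n := by
    filter_upwards [hne] with n hn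
    obtain ⟨i, hi, hfi⟩ := hn
    have h5 : α i n 0 = f i n (c n) := by
      change f i n (c n + 0) = f i n (c n)
      rw [add_zero]
    have h6 : 0 < ‖α i n 0‖ ^ (((w i - 0 : ℕ) : ℝ)⁻¹) := by
      refine Real.rpow_pos_of_pos ?_ _
      rw [h5]
      exact norm_pos_iff.2 hfi
    have h7 : ‖α i n 0‖ ^ (((w i - 0 : ℕ) : ℝ)⁻¹) ≤ wsum (w i) (α i n) :=
      single_le_sum (f := fun l => ‖α i n l‖ ^ (((w i - l : ℕ) : ℝ)⁻¹)) (fun j _ => Real.rpow_nonneg (norm_nonneg _) _) (mem_range.2 (by omega))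
    exact h6.trans_le (h7.trans (hle n i))
  -- the limits of the coefficients
  have hq : ∀ i l, ∃ b : E i, l ≤ w i → Tendsto (fun n => ((lam n : ℂ) ^ (w i - l))⁻¹ • tr l (φ i n) 0) 𝒰 (𝓝 b) := by
    intro i l
    by_cases hl : l < w i
    · obtain ⟨b, hb⟩ := exists_lim_of_bdd 𝒰 (b := fun n => ((lam n : ℂ) ^ (w i - l))⁻¹ • tr l (φ i n) 0) (C := 1) (by
        filter_upwards [hpos] with n hn
        exact norm_resc_le (x := α i n) hn (hle n i) hl)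
      exact ⟨b, fun _ => hb⟩
    · refine ⟨tr l (ψ i) 0, fun h => ?_⟩
      have e : w i - l = 0 := by omega
      simp only [e, pow_zero, inv_one, one_smul]
      exact htr i l
  choose q hq using hq
  have hres : ∀ i, ∀ A : ℝ, TendstoUniformlyOn (fun n u => ((lam n : ℂ) ^ w i)⁻¹ • φ i n (lam n * u))
      (fun u => ∑ l ∈ range (w i + 1), u ^ l • q i l) 𝒰 (closedBall 0 A) := fun i A =>
    resc hρ0 (hφd i) (hψd i) (hB i) (hun i) (ContinuousLinearMap.id ℂ (E i)) hlam0 hpos (w i) (b := q i) (fun l hl => hq i l hl) A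
  refine ⟨lam, q, hlam0, hpos, hres, ?_, ?_, fun i l hl => hq i l hl, ?_⟩
  · intro i
    refine tendsto_nhds_unique (hq i (w i) le_rfl) ?_
    have h1 := htr i (w i)
    rw [hψ, tr_pow_smul_self hρ0 (hKρ i)] at h1
    simp only [Nat.sub_self, pow_zero, inv_one, one_smul]
    exact h1
  · intro h1
    have h3 : Tendsto (fun n => ∑ i, wsum (w i) (fun l => ((lam n : ℂ) ^ (w i - l))⁻¹ • α i n l)) 𝒰 (𝓝 (∑ i, wsum (w i) (q i))) :=
      tendsto_finset_sum _ fun i _ => wsum_tendsto (x := fun n l => ((lam n : ℂ) ^ (w i - l))⁻¹ • α i n l) (x₀ := q i) fun l hl => hq i l hl.le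
    have h2 : ∑ i, wsum (w i) (q i) = 0 := sum_eq_zero fun i _ => wsum_eq_zero (h1 i)
    rw [h2] at h3
    have h4 : Tendsto (fun n => ∑ i, wsum (w i) (fun l => ((lam n : ℂ) ^ (w i - l))⁻¹ • α i n l)) 𝒰 (𝓝 1) := by
      refine tendsto_const_nhds.congr' ?_
      filter_upwards [hpos] with n hn
      simp_rw [wsum_smul hn]
      rw [← mul_sum]
      exact (inv_mul_cancel₀ hn.ne').symm
    exact zero_ne_one (tendsto_nhds_unique h3 h4)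
  · intro ε hε
    have hl : ∀ i, ∀ᶠ n in (𝒰 : Filter ℕ), ∀ l < w i, ‖tr l (φ i n) 0‖ ≤ lam n ^ (w i - l) := fun i =>
      Eventually.of_forall fun n l hl => le_of_wsum (x := α i n) (hle n i) hl
    have h1 : ∀ i, ∃ R₀ δ : ℝ, 1 ≤ R₀ ∧ 0 < δ ∧ δ < ρ ∧ ∀ᶠ n in (𝒰 : Filter ℕ), ∀ z : ℂ, R₀ * lam n ≤ ‖z‖ → ‖z‖ ≤ δ →
        ‖φ i n z - z ^ w i • K i 0‖ ≤ ε * ‖z‖ ^ w i := fun i => neck_one hρ0 (hφd i) (hKρ i) (hun i) hpos (hl i) hε
    choose R₀ δ hR hδ hδρ hn using h1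
    obtain ⟨δ', hδ', hδ'ρ, hδ'i⟩ : ∃ δ' : ℝ, 0 < δ' ∧ δ' < ρ ∧ ∀ i, δ' ≤ δ i := by
      rcases isEmpty_or_nonempty ι with he | hne'
      · exact ⟨ρ / 2, by linarith, by linarith, fun i => (he.false i).elim⟩
      · obtain ⟨i₀, -, hi₀⟩ := exists_min_image univ δ univ_nonempty
        exact ⟨δ i₀, hδ i₀, hδρ i₀, fun i => hi₀ i (mem_univ i)⟩
    refine ⟨1 + ∑ i, R₀ i, δ', ?_, hδ', hδ'ρ, ?_⟩
    · have : 0 ≤ ∑ i, R₀ i := sum_nonneg fun i _ => (by linarith [hR i])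
      linarith
    · rw [eventually_all]
      intro i
      filter_upwards [hn i, hpos] with n h2 h3 z hz1 hz2
      refine h2 z (le_trans ?_ hz1) (hz2.trans (hδ'i i))
      refine mul_le_mul_of_nonneg_right ?_ h3.le
      have h4 : R₀ i ≤ ∑ i, R₀ i := single_le_sum (f := R₀) (fun j _ => (by linarith [hR j])) (mem_univ i)
      linarith

end Pool.Agent.H13.G0
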