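import Mathlib

/-!
# G0 Tay: Taylor coefficients by iterated divided differences, and their limits along an ultrafilter

`tr k φ` is the `k`-th divided difference of `φ` at `0` (`φ z = Σ_{l<k} z ^ l • tr l φ 0 + z ^ k • tr k φ z`).
-/

set_option autoImplicit false

open Topology Filter Metric Finset

namespace Pool.Agent.H13.G0

variable {E : Type*} [NormedAddCommGroup E] [NormedSpace ℂ E]

/-- the iterated divided difference at `0` -/
noncomputable def tr (k : ℕ) (φ : ℂ → E) : ℂ → E := (fun ψ => dslope ψ 0)^[k] φ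

@[simp] theorem tr_zero (φ : ℂ → E) : tr 0 φ = φ := rfl

theorem tr_succ (k : ℕ) (φ : ℂ → E) : tr (k + 1) φ = dslope (tr k φ) 0 := by
  unfold tr
  rw [Function.iterate_succ_apply']

theorem tr_succ' (k : ℕ) (φ : ℂ → E) : tr (k + 1) φ = tr k (dslope φ 0) := by
  unfold tr
  rw [Function.iterate_succ_apply]

theorem tr_step (k : ℕ) (φ : ℂ → E) (z : ℂ) : tr k φ z = tr k φ 0 + z • tr (k + 1) φ z := by
  have h := sub_smul_dslope (tr k φ) 0 z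
  rw [tr_succ]
  rw [sub_zero] at h
  rw [h]
  abel

/-- Taylor expansion with remainder -/
theorem tr_sum (k : ℕ) (φ : ℂ → E) (z : ℂ) : φ z = ∑ l ∈ range k, z ^ l • tr l φ 0 + z ^ k • tr k φ z := by
  induction k with
  | zero => simp
  | succ k ih =>
    rw [sum_range_succ, add_assoc]
    nth_rewrite 1 [ih]
    congr 1
    rw [tr_step k φ z, smul_add, smul_smul, pow_succ]

variable [CompleteSpace E]

theorem diff_tr {φ : ℂ → E} {ρ : ℝ} (hρ : 0 < ρ) (hφ : DifferentiableOn ℂ φ (ball 0 ρ)) (k : ℕ) : DifferentiableOn ℂ (tr k φ) (ball 0 ρ) := by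
  induction k with
  | zero => simpa using hφ
  | succ k ih =>
    rw [tr_succ]
    exact (Complex.differentiableOn_dslope (ball_mem_nhds 0 hρ)).2 ih

theorem norm_dslope_le {φ : ℂ → E} {ρ B : ℝ} (hρ : 0 < ρ) (hφ : DifferentiableOn ℂ φ (ball 0 ρ))
    (hB : ∀ z ∈ ball (0 : ℂ) ρ, ‖φ z‖ ≤ B) : ∀ z ∈ ball (0 : ℂ) ρ, ‖dslope φ 0 z‖ ≤ 2 * B / ρ := by
  intro z hz
  refine Complex.norm_dslope_le_div_of_mapsTo_ball hφ (fun w hw => ?_) hz
  rw [mem_closedBall, dist_eq_norm]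
  have h1 := hB w hw
  have h2 := hB 0 (mem_ball_self hρ)
  have h3 := norm_sub_le (φ w) (φ 0)
  linarith

theorem norm_tr_le {φ : ℂ → E} {ρ B : ℝ} (hρ : 0 < ρ) (hφ : DifferentiableOn ℂ φ (ball 0 ρ))
    (hB : ∀ z ∈ ball (0 : ℂ) ρ, ‖φ z‖ ≤ B) (k : ℕ) : ∀ z ∈ ball (0 : ℂ) ρ, ‖tr k φ z‖ ≤ (2 / ρ) ^ k * B := by
  induction k with
  | zero => simpa using hB
  | succ k ih =>
    intro z hz
    have h1 := norm_dslope_le hρ (diff_tr hρ hφ k) ih z hz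
    rw [← tr_succ] at h1
    refine h1.trans (le_of_eq ?_)
    rw [pow_succ]
    ring

theorem dslope_sub_eq {φ ψ : ℂ → E} {ρ : ℝ} (hρ : 0 < ρ) (hφ : DifferentiableOn ℂ φ (ball 0 ρ)) (hψ : DifferentiableOn ℂ ψ (ball 0 ρ)) :
    dslope (fun z => φ z - ψ z) 0 = fun z => dslope φ 0 z - dslope ψ 0 z := by
  funext z
  rcases eq_or_ne z 0 with rfl | hz
  · rw [dslope_same, dslope_same, dslope_same]
    have h1 := (hφ 0 (mem_ball_self hρ)).differentiableAt (ball_mem_nhds 0 hρ)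
    have h2 := (hψ 0 (mem_ball_self hρ)).differentiableAt (ball_mem_nhds 0 hρ)
    exact deriv_fun_sub h1 h2
  · rw [dslope_of_ne _ hz, dslope_of_ne _ hz, dslope_of_ne _ hz]
    simp only [slope, vsub_eq_sub]
    rw [← smul_sub]
    congr 1
    abel

theorem tr_sub {φ ψ : ℂ → E} {ρ : ℝ} (hρ : 0 < ρ) (hφ : DifferentiableOn ℂ φ (ball 0 ρ)) (hψ : DifferentiableOn ℂ ψ (ball 0 ρ)) (k : ℕ) :
    tr k (fun z => φ z - ψ z) = fun z => tr k φ z - tr k ψ z := by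
  induction k with
  | zero => rfl
  | succ k ih =>
    rw [tr_succ, ih, dslope_sub_eq hρ (diff_tr hρ hφ k) (diff_tr hρ hψ k), tr_succ, tr_succ]

theorem dslope_clm {F : Type*} [NormedAddCommGroup F] [NormedSpace ℂ F] (a : E →L[ℂ] F) {φ : ℂ → E} {ρ : ℝ} (hρ : 0 < ρ)
    (hφ : DifferentiableOn ℂ φ (ball 0 ρ)) : dslope (fun z => a (φ z)) 0 = fun z => a (dslope φ 0 z) := by
  funext z
  exact a.dslope_comp φ 0 z fun _ => (hφ 0 (mem_ball_self hρ)).differentiableAt (ball_mem_nhds 0 hρ)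

theorem tr_clm {F : Type*} [NormedAddCommGroup F] [NormedSpace ℂ F] (a : E →L[ℂ] F) {φ : ℂ → E} {ρ : ℝ} (hρ : 0 < ρ)
    (hφ : DifferentiableOn ℂ φ (ball 0 ρ)) (k : ℕ) : tr k (fun z => a (φ z)) = fun z => a (tr k φ z) := by
  induction k with
  | zero => rfl
  | succ k ih => rw [tr_succ, ih, dslope_clm a hρ (diff_tr hρ hφ k), tr_succ]

/-- convergence of the divided differences -/
theorem tendsto_tr {𝒰 : Filter ℕ} {φ : ℕ → ℂ → E} {ψ : ℂ → E} {ρ : ℝ} (hρ : 0 < ρ) (hφ : ∀ᶠ n in 𝒰, DifferentiableOn ℂ (φ n) (ball 0 ρ))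
    (hψ : DifferentiableOn ℂ ψ (ball 0 ρ)) (h : ∀ ε : ℝ, 0 < ε → ∀ᶠ n in 𝒰, ∀ z ∈ ball (0 : ℂ) ρ, ‖φ n z - ψ z‖ ≤ ε) (k : ℕ) :
    ∀ ε : ℝ, 0 < ε → ∀ᶠ n in 𝒰, ∀ z ∈ ball (0 : ℂ) ρ, ‖tr k (φ n) z - tr k ψ z‖ ≤ ε := by
  intro ε hε
  have hp : (0 : ℝ) < (2 / ρ) ^ k := by positivity
  filter_upwards [hφ, h (ε / (2 / ρ) ^ k) (by positivity)] with n h1 h2 z hz
  have h3 := norm_tr_le hρ (h1.sub hψ) h2 k z hz
  have h4 : tr k (φ n - ψ) = fun z => tr k (φ n) z - tr k ψ z := tr_sub hρ h1 hψ k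
  rw [h4] at h3
  refine h3.trans (le_of_eq ?_)
  field_simp

theorem tendsto_tr_zero {𝒰 : Filter ℕ} {φ : ℕ → ℂ → E} {ψ : ℂ → E} {ρ : ℝ} (hρ : 0 < ρ) (hφ : ∀ᶠ n in 𝒰, DifferentiableOn ℂ (φ n) (ball 0 ρ))
    (hψ : DifferentiableOn ℂ ψ (ball 0 ρ)) (h : ∀ ε : ℝ, 0 < ε → ∀ᶠ n in 𝒰, ∀ z ∈ ball (0 : ℂ) ρ, ‖φ n z - ψ z‖ ≤ ε) (k : ℕ) :
    Tendsto (fun n => tr k (φ n) 0) 𝒰 (𝓝 (tr k ψ 0)) := by
  rw [Metric.tendsto_nhds]
  intro ε hε
  filter_upwards [tendsto_tr hρ hφ hψ h k (ε / 2) (by linarith)] with n hn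
  rw [dist_eq_norm]
  have := hn 0 (mem_ball_self hρ)
  linarith

/-- the divided difference of `z ^ m • K z` -/
theorem dslope_smul {K : ℂ → E} (hK : ContinuousAt K 0) : dslope (fun z : ℂ => z • K z) 0 = K := by
  funext z
  rcases eq_or_ne z 0 with rfl | hz
  · rw [dslope_same]
    refine HasDerivAt.deriv ?_
    rw [hasDerivAt_iff_tendsto_slope_zero]
    have h1 : Tendsto K (𝓝[≠] 0) (𝓝 (K 0)) := hK.tendsto.mono_left nhdsWithin_le_nhds
    refine h1.congr' ?_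
    filter_upwards [self_mem_nhdsWithin] with t ht
    rw [zero_add, zero_smul, sub_zero, smul_smul, inv_mul_cancel₀ ht, one_smul]
  · rw [dslope_of_ne _ hz, slope_def_module, zero_smul, sub_zero, sub_zero, smul_smul, inv_mul_cancel₀ hz, one_smul]

theorem tr_pow_smul {K : ℂ → E} {ρ : ℝ} (hρ : 0 < ρ) (hK : DifferentiableOn ℂ K (ball 0 ρ)) (m : ℕ) :
    ∀ k : ℕ, k ≤ m → tr k (fun z : ℂ => z ^ m • K z) = fun z => z ^ (m - k) • K z := by
  have hc : ContinuousAt K 0 := (hK.continuousOn 0 (mem_ball_self hρ)).continuousAt (ball_mem_nhds 0 hρ)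
  intro k
  induction k with
  | zero => intro _; simp
  | succ k ih =>
    intro hk
    rw [tr_succ, ih (by omega)]
    have e : (fun z : ℂ => z ^ (m - k) • K z) = fun z => z • (z ^ (m - (k + 1)) • K z) := by
      funext z
      rw [smul_smul, ← pow_succ']
      congr 2
      omega
    rw [e]
    refine dslope_smul ?_
    exact (continuousAt_id.pow _).smul hc

theorem tr_pow_smul_zero {K : ℂ → E} {ρ : ℝ} (hρ : 0 < ρ) (hK : DifferentiableOn ℂ K (ball 0 ρ)) {m k : ℕ} (hk : k < m) :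
    tr k (fun z : ℂ => z ^ m • K z) 0 = 0 := by
  rw [tr_pow_smul hρ hK m k hk.le]
  simp [Nat.sub_ne_zero_of_lt hk]

theorem tr_pow_smul_self {K : ℂ → E} {ρ : ℝ} (hρ : 0 < ρ) (hK : DifferentiableOn ℂ K (ball 0 ρ)) (m : ℕ) :
    tr m (fun z : ℂ => z ^ m • K z) = K := by
  rw [tr_pow_smul hρ hK m m le_rfl]
  simp

theorem tr_pow_smul_succ {K : ℂ → E} {ρ : ℝ} (hρ : 0 < ρ) (hK : DifferentiableOn ℂ K (ball 0 ρ)) (m : ℕ) :
    tr (m + 1) (fun z : ℂ => z ^ m • K z) 0 = deriv K 0 := by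
  rw [tr_succ, tr_pow_smul_self hρ hK, dslope_same]

end Pool.Agent.H13.G0
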